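import Mathlib
import Pool.Agent.H284.AP.Seq

/-!
# Automorphism groups and holomorphs of large direct powers over `κ(X)`, `κ` a finite field

Let `G i`, `i ∈ I`, be finitely many arbitrary finite groups, `H = ∏ (G i)^(n i)` with
`n i ≥ bd |G i|`, where `bd c = ((3 c c! + 2)!)^3` (`LargePower H`). Let `Aut_c(H)`
(`CentralAut H`) be the group of all automorphisms `θ` with `θ x x⁻¹ ∈ Z(H)` for all `x`, `Z1(H)`
the subgroup of the centre generated by all these elements `θ x x⁻¹`, and
`E(H) = Z1(H) ⋊ Aut_c(H)` (`EE H`), a normal subgroup of the holomorph `Hol(H) = H ⋊ Aut(H)`.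
`PowerType N` means that `N` is isomorphic to one of the groups
`Aut(H)/[Aut_c(H), Aut_c(H)]` (`AutE H`), `Hol(H)/[E(H), E(H)]` (`HolE H`), or to `Aut(H)` or
`Hol(H)`, where in the last two cases `f (g x) = 1` is assumed for any two homomorphisms
`f, g : H → Z(H)` (condition `CC H`; for example it holds if `Z(G i) ≤ [G i, G i]` for all `i`).

The theorem: let `κ` be any finite field (for example `F_p`) and `L` a finite Galois extension of
`κ(X)` (for example `κ(X)` itself). For every sequence `N k` of groups as above there is a Galois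
extension of `κ(X)` containing `L` with the group `Gal(L/κ(X)) × ∏ N k`, compatibly with the
restriction to `L`. In particular all these groups `N` occur over `F_p(X)`, for every prime `p`.

Outline. `H` is a direct product of indecomposable groups `R j` with large multiplicities `m j`. By
the method of the Krull-Schmidt theorem every automorphism of `H` is, up to a central automorphism,
given by a permutation of isomorphic nonabelian factors and automorphisms of these factors; so
`Hol(H)` is the product of `E(H)` and the image of the direct product of the wreath products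
`Hol(R j) ≀ S_(m j)`. So `Hol(H)/[E(H), E(H)]` is a quotient of a semidirect product of a direct
product of wreath products with a finite abelian kernel. The starting library realizes the wreath
products and solves the split embedding problems with abelian kernels.
-/

set_option autoImplicit false

open Pool.Agent.H284.AP

namespace Pool.Agent.Results.MP_7f581e_nt.LargePowers

/-- All components in the groups `N k` of the isomorphism `γ` are continuous: their kernels are
open. -/
def Cont {E F Γ : Type} [Field E] [Field F] [Algebra E F] [Group Γ] {N : ℕ → Type}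
    [∀ k, Group (N k)] (γ : (F ≃ₐ[E] F) ≃* Γ × (∀ k, N k)) : Prop :=
  ∀ k, IsOpen {σ : F ≃ₐ[E] F | (γ σ).2 k = 1}

/-- Each `σ` acts on the subfield `L` of `F` as the component of `γ σ` in `Gal(L/E)`. -/
def Restricts {E F L : Type} [Field E] [Field F] [Algebra E F] [Field L] [Algebra E L]
    [Algebra L F] {M : Type} [Group M] (γ : (F ≃ₐ[E] F) ≃* (L ≃ₐ[E] L) × M) : Prop :=
  ∀ (σ : F ≃ₐ[E] F) (x : L), σ (algebraMap L F x) = algebraMap L F ((γ σ).1 x)

/-- The finite Galois extension `L` of `E` is contained in a Galois extension `F` of `E` with the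
group `Gal(L/E) × ∏ N k` (all components of the isomorphism are continuous, that is, have open
kernel); the first component gives the action on `L`. -/
def OccursWith (E L : Type) [Field E] [Field L] [Algebra E L] (N : ℕ → Type)
    [∀ k, Group (N k)] : Prop :=
  ∃ (F : Type) (_ : Field F) (_ : Algebra E F) (_ : Algebra L F) (_ : IsScalarTower E L F)
    (_ : IsGalois E F) (γ : (F ≃ₐ[E] F) ≃* (L ≃ₐ[E] L) × (∀ k, N k)), Cont γ ∧ Restricts γ

theorem occursWith (κ : Type) [Field κ] [Finite κ] (L : Type) [Field L] [Algebra (RatFunc κ) L]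
    [FiniteDimensional (RatFunc κ) L] [IsGalois (RatFunc κ) L] (N : ℕ → Type)
    [∀ k, Group (N k)] (hN : ∀ k, PowerType (N k)) : OccursWith (RatFunc κ) L N := by
  obtain ⟨F, i1, i2, i3, i4, i5, γ, h1, h2⟩ := Pool.Agent.TH444.TW.cls_ratFunc κ
    (WS (L ≃ₐ[RatFunc κ] L) N) (pS (L ≃ₐ[RatFunc κ] L) N)
    (pS_cls (L ≃ₐ[RatFunc κ] L) N hN (RatFunc κ)) L (zS (L ≃ₐ[RatFunc κ] L) N)
  refine ⟨F, i1, i2, i3, i4, i5, γ.trans (limS (L ≃ₐ[RatFunc κ] L) N), fun k => ?_,
    fun σ x => h2 σ x⟩
  exact isOpen_comp (L ≃ₐ[RatFunc κ] L) N γ h1 k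

end Pool.Agent.Results.MP_7f581e_nt.LargePowers

open Pool.Agent.Results.MP_7f581e_nt.LargePowers in
theorem Pool.Agent.Results.MP_7f581e_nt.LargePowers.result :
    ∀ (κ : Type) [Field κ] [Finite κ] (L : Type) [Field L] [Algebra (RatFunc κ) L]
      [FiniteDimensional (RatFunc κ) L] [IsGalois (RatFunc κ) L] (N : ℕ → Type)
      [∀ k, Group (N k)], (∀ k, PowerType (N k)) → OccursWith (RatFunc κ) L N := by
  intro κ _ _ L _ _ _ _ N _ hN
  exact occursWith κ L N hN
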