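import Mathlib
import Pool.Agent.Y140.IG.PI

/-!
# The inverse Galois problem over `κ(X)`, `κ` finite, and its regular form

(1) Let `κ` be a finite field and `G` a finite group, and let `r` be the number of primes dividing
the order of the abelianization of `G`. Then `G` occurs regularly over `κ` if and only if the direct
power `G ^ (r + 1)` occurs over `κ(X)`, and then, for EVERY field `K` containing `κ`, all embedding
problems over `K` with kernel a power of `G` given by a permutation action have regular solutions
over `K(t)`, and proper solutions over `K` if `K` is Hilbertian.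

(2) A finite perfect group occurs over `κ(X)` if and only if it occurs regularly over `κ`.

(3) For every prime `p` the following are equivalent: every finite group occurs over `F_p(X)`; every
finite group occurs regularly over every field of characteristic `p`; every finite group occurs over
every Hilbertian field of characteristic `p`.
-/

set_option autoImplicit false

namespace Pool.Agent.Results.MP_7f581e_nt.RegularForms

/-- `G` occurs over `F`: it is the Galois group of a finite Galois extension of `F`. -/
def Occurs (F G : Type) [Field F] [Group G] : Prop :=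
  ∃ (L : Type) (_ : Field L) (_ : Algebra F L),
    FiniteDimensional F L ∧ IsGalois F L ∧ Nonempty ((L ≃ₐ[F] L) ≃* G)

/-- `G` occurs regularly over `K`: it is the Galois group of a finite Galois extension of `K(t)` in
which `K` is algebraically closed. -/
def OccursRegularly (K G : Type) [Field K] [Group G] : Prop :=
  ∃ (F : Type) (_ : Field F) (_ : Algebra (RatFunc K) F) (_ : Algebra K F)
    (_ : IsScalarTower K (RatFunc K) F) (_ : FiniteDimensional (RatFunc K) F)
    (_ : IsGalois (RatFunc K) F),
    Nonempty ((F ≃ₐ[RatFunc K] F) ≃* G) ∧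
    ∀ y : F, IsAlgebraic K y → y ∈ Set.range (algebraMap K F)

/-- `K` is Hilbertian (in the form used in frozen statement S03429). -/
def Hilbertian (K : Type) [Field K] : Prop :=
  ∀ (f : Polynomial (Polynomial K)), f.Monic → Irreducible f →
    (f.map (algebraMap (Polynomial K) (FractionRing (Polynomial K)))).Separable →
    ∀ g : Polynomial K, g ≠ 0 →
      ∃ a : K, g.eval a ≠ 0 ∧ Irreducible (f.map (Polynomial.evalRingHom a))

/-- The embedding problem `α : E → Gal(L/K)` has a regular solution over `K(t)`: there are a finite
Galois extension `F` of `K(t)` containing `L`, with `L` algebraically closed in `F`, and an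
isomorphism `γ` of `Gal(F/K(t))` with `E` such that `σ` acts on `L` as `α (γ σ)`. -/
def RegularSolution (K L E : Type) [Field K] [Field L] [Algebra K L] [Group E]
    (α : E →* (L ≃ₐ[K] L)) : Prop :=
  ∃ (F : Type) (_ : Field F) (_ : Algebra (RatFunc K) F) (_ : Algebra L F)
    (_ : Algebra K F) (_ : IsScalarTower K (RatFunc K) F) (_ : IsScalarTower K L F)
    (_ : FiniteDimensional (RatFunc K) F) (_ : IsGalois (RatFunc K) F)
    (γ : (F ≃ₐ[RatFunc K] F) ≃* E),
    (∀ (σ : F ≃ₐ[RatFunc K] F) (x : L), σ (algebraMap L F x) = algebraMap L F (α (γ σ) x)) ∧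
    ∀ y : F, IsAlgebraic L y → y ∈ Set.range (algebraMap L F)

/-- The embedding problem `α : E → Gal(L/K)` has a proper solution: there are a finite Galois
extension `F` of `K` containing `L` and an isomorphism `γ` of `Gal(F/K)` with `E` such that
`α (γ σ)` is the restriction of `σ` to `L`. -/
def ProperSolution (K L E : Type) [Field K] [Field L] [Algebra K L] [Normal K L] [Group E]
    (α : E →* (L ≃ₐ[K] L)) : Prop :=
  ∃ (F : Type) (_ : Field F) (_ : Algebra K F) (_ : Algebra L F) (_ : IsScalarTower K L F),
    FiniteDimensional K F ∧ IsGalois K F ∧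
    ∃ γ : (F ≃ₐ[K] F) ≃* E, ∀ σ : F ≃ₐ[K] F, α (γ σ) = σ.restrictNormal L

/-- For every finite Galois extension `L` of `K` and every action of `Gal(L/K)` on a finite set `X`,
the embedding problem given by the wreath product `(X → G) ⋊ Gal(L/K) → Gal(L/K)` (`τ` sends `f` to
`x ↦ f (τ⁻¹ x)`) has a regular solution over `K(t)`. -/
def WreathRegular (K G : Type) [Field K] [Group G] : Prop :=
  ∀ (L : Type) [Field L] [Algebra K L] [FiniteDimensional K L] [IsGalois K L]
    (X : Type) [Finite X] [MulAction (L ≃ₐ[K] L) X],
    RegularSolution K L ((X → G) ⋊[mulAutArrow] (L ≃ₐ[K] L)) SemidirectProduct.rightHom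

/-- The same embedding problems have proper solutions over `K`. -/
def WreathProper (K G : Type) [Field K] [Group G] : Prop :=
  ∀ (L : Type) [Field L] [Algebra K L] [FiniteDimensional K L] [IsGalois K L]
    (X : Type) [Finite X] [MulAction (L ≃ₐ[K] L) X],
    ProperSolution K L ((X → G) ⋊[mulAutArrow] (L ≃ₐ[K] L)) SemidirectProduct.rightHom

/-- The number of primes dividing the order of the abelianization of `G`. -/
noncomputable def abPrimes (G : Type) [Group G] : ℕ :=
  (Nat.card (Abelianization G)).primeFactors.card

/-- Part (1). -/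
theorem one_group (κ : Type) [Field κ] [Finite κ] (G : Type) [Group G] [Finite G] :
    List.TFAE
      [OccursRegularly κ G,
       Occurs (RatFunc κ) (Fin (abPrimes G + 1) → G),
       ∀ (K : Type) [Field K] [Algebra κ K], WreathRegular K G,
       ∀ (K : Type) [Field K] [Algebra κ K], Hilbertian K → WreathProper K G] :=
  Pool.Agent.Y140.IG.one_group κ G

/-- Part (2). -/
theorem perfect_group (κ : Type) [Field κ] [Finite κ] (G : Type) [Group G] [Finite G]
    (hG : commutator G = ⊤) : Occurs (RatFunc κ) G ↔ OccursRegularly κ G := by
  have h0 : abPrimes G + 1 = 1 := by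
    have hs : Subsingleton (Abelianization G) := by
      refine ⟨fun x y => ?_⟩
      obtain ⟨x, rfl⟩ := QuotientGroup.mk_surjective x
      obtain ⟨y, rfl⟩ := QuotientGroup.mk_surjective y
      refine QuotientGroup.eq.2 ?_
      rw [hG]
      exact Subgroup.mem_top _
    have h1 : Nat.card (Abelianization G) = 1 := Nat.card_unique
    rw [abPrimes, h1]
    simp
  have h := (one_group κ G).out 0 1
  rw [h0] at h
  have e : (Fin 1 → G) ≃* G := MulEquiv.funUnique (Fin 1) G
  constructor
  · rintro ⟨F, i1, i2, h5, h6, ⟨γ⟩⟩
    exact h.2 ⟨F, i1, i2, h5, h6, ⟨γ.trans e.symm⟩⟩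
  · intro hr
    obtain ⟨F, i1, i2, h5, h6, ⟨γ⟩⟩ := h.1 hr
    exact ⟨F, i1, i2, h5, h6, ⟨γ.trans e⟩⟩

/-- **The inverse Galois problem over `κ(X)` and its regular form.** -/
theorem result :
    (∀ (κ : Type) [Field κ] [Finite κ] (G : Type) [Group G] [Finite G],
      List.TFAE
        [OccursRegularly κ G,
         Occurs (RatFunc κ) (Fin (abPrimes G + 1) → G),
         ∀ (K : Type) [Field K] [Algebra κ K], WreathRegular K G,
         ∀ (K : Type) [Field K] [Algebra κ K], Hilbertian K → WreathProper K G]) ∧
    (∀ (κ : Type) [Field κ] [Finite κ] (G : Type) [Group G] [Finite G], commutator G = ⊤ →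
      (Occurs (RatFunc κ) G ↔ OccursRegularly κ G)) ∧
    ∀ (p : ℕ) [Fact p.Prime],
      List.TFAE
        [∀ (G : Type) [Group G] [Finite G], Occurs (RatFunc (ZMod p)) G,
         ∀ (K : Type) [Field K] [CharP K p] (G : Type) [Group G] [Finite G], OccursRegularly K G,
         ∀ (K : Type) [Field K] [CharP K p], Hilbertian K →
           ∀ (G : Type) [Group G] [Finite G], Occurs K G] :=
  ⟨fun κ _ _ G _ _ => one_group κ G, fun κ _ _ G _ _ hG => perfect_group κ G hG,
    fun p _ => Pool.Agent.Y140.IG.all_groups p⟩

end Pool.Agent.Results.MP_7f581e_nt.RegularForms
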