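import Pool.Agent.V11286.IG.SymU

/-!
# All groups of bounded order over one symmetric extension of `κ(X)`, `κ` a finite field

For every `m` there is an `n₀` such that for ALL finite fields `κ` and all `n ≥ n₀` there is a Galois extension `M` of
`κ(X)` with the group `S_n` in which `κ` is algebraically closed such that every group of order at most `m` is the group of
a Galois extension of this field `M` in which `κ` is algebraically closed.
-/

set_option autoImplicit false

namespace Pool.Agent.Results.MP_7f581e_nt.SymmetricBaseChange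

/-- The group `G` occurs regularly over the extension `M` of the field `κ`: there is a finite Galois extension `F` of `M`
with Galois group isomorphic to `G` in which `κ` is algebraically closed. -/
def OccursReg (κ M G : Type) [Field κ] [Field M] [Algebra κ M] [Group G] : Prop :=
  ∃ (F : Type) (_ : Field F) (_ : Algebra M F) (_ : Algebra κ F) (_ : IsScalarTower κ M F),
    FiniteDimensional M F ∧ IsGalois M F ∧ Nonempty ((F ≃ₐ[M] F) ≃* G) ∧
    ∀ y : F, IsAlgebraic κ y → y ∈ Set.range (algebraMap κ F)

/-- `M` is a Galois extension of `κ(X)` with the group `S_n`, and `κ` is algebraically closed in `M`. -/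
def Symmetric (κ M : Type) [Field κ] [Field M] [Algebra (RatFunc κ) M] [Algebra κ M] (n : ℕ) : Prop :=
  IsGalois (RatFunc κ) M ∧ Nonempty (Equiv.Perm (Fin n) ≃* (M ≃ₐ[RatFunc κ] M)) ∧
    ∀ y : M, IsAlgebraic κ y → y ∈ Set.range (algebraMap κ M)

end Pool.Agent.Results.MP_7f581e_nt.SymmetricBaseChange

open Pool.Agent.Results.MP_7f581e_nt.SymmetricBaseChange in
/-- **Theorem.** For every `m` there is an `n₀` such that for all finite fields `κ` and all `n ≥ n₀` there is a Galois
extension `M` of `κ(X)` with `Gal(M/κ(X)) ≅ S_n`, in which `κ` is algebraically closed, such that every group of order at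
most `m` occurs regularly over `M`. -/
theorem Pool.Agent.Results.MP_7f581e_nt.SymmetricBaseChange.result :
    ∀ m : ℕ, ∃ n₀ : ℕ, ∀ (κ : Type) [Field κ] [Finite κ], ∀ n ≥ n₀,
      ∃ (M : Type) (_ : Field M) (_ : Algebra (RatFunc κ) M) (_ : Algebra κ M) (_ : IsScalarTower κ (RatFunc κ) M),
        Symmetric κ M n ∧ ∀ (G : Type) [Group G] [Finite G], Nat.card G ≤ m → OccursReg κ M G := by
  intro m
  refine ⟨Pool.Agent.V11286.IG.bdm (Equiv.Perm (Fin 1)) m, fun κ _ _ n hn => ?_⟩
  obtain ⟨M, i1, i2, i3, i4, i5, h1, h2, h3⟩ := Pool.Agent.V11286.IG.reg_groups m κ n hn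
  exact ⟨M, i1, i2, i3, i4, ⟨i5, h1, h2⟩, fun G _ _ hG => h3 G hG⟩
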